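import Pool.Agent.Lib.H8.Bin2

set_option maxHeartbeats 400000

namespace Pool.Agent.Results.MP_96deef_nt.Yes
open PowerSeries Pool.Agent.Lib.H8.Bin2
open Pool.Agent.Lib.H8.Col4 (itr coeff_pow2_mul)

/-- The power series 1/(1 - x^d) over the integers (d ≥ 1). -/
noncomputable def geo (d : ℕ) : ℤ⟦X⟧ := invOfUnit (1 - X ^ d) 1

/-- c_m(n) = S_{2,m}(n): coefficient of x^n in (1-x)^{-m} ∏_j (1-x^{2^j})^{-m}; the factors with
j > n are 1 modulo x^{n+1}, so they are left out. -/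
noncomputable def c (m n : ℕ) : ℤ :=
  coeff n (geo 1 ^ m * ∏ j ∈ Finset.range (n + 1), geo (2 ^ j) ^ m)

/-- u_m(n) = ν_2(w - 1) (value ∞ when w = 1), where w is c_m(n) divided by 2^{ν_2(c_m(n))}. -/
noncomputable def u (m n : ℕ) : ℕ∞ :=
  emultiplicity (2 : ℤ) (c m n / 2 ^ multiplicity (2 : ℤ) (c m n) - 1)

def T : List (List ℤ) := [itr 29 [1],
    [1, 35, 22, 58, 7, 29, 12, 52, 49, 35, 58, 22, 63, 21, 40, 24, 43, 1, 42, 6, 29, 15, 12, 52, 35, 57, 6, 42, 29, 63],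
    [1, 53, 14, 30, 63, 51, 28, 28, 1, 37, 34, 50, 39, 11, 8, 8, 11, 39, 50, 34, 37, 1, 28, 28, 51, 63, 30, 14, 53, 1],
    [6, 8, 44, 8, 18, 48, 56, 48, 22, 24, 20, 24, 50, 32, 16, 32, 34, 56, 20, 56, 6, 48, 56, 48, 2, 40, 44, 40, 54, 0],
    [6, 40, 12, 40, 50, 48, 56, 48, 22, 56, 52, 56, 18, 32, 16, 32, 34, 24, 52, 24, 38, 48, 56, 48, 2, 8, 12, 8, 22, 0],
    [6, 56, 28, 24, 34, 16, 24, 16, 54, 40, 36, 8, 34, 32, 16, 32, 34, 8, 36, 40, 54, 16, 24, 16, 34, 24, 28, 56, 6, 0],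
    [10, 24, 20, 24, 62, 16, 8, 16, 58, 8, 44, 8, 30, 32, 48, 32, 14, 40, 44, 40, 42, 16, 8, 16, 46, 56, 20, 56, 58, 0],
    [10, 56, 52, 56, 30, 16, 8, 16, 58, 40, 12, 40, 62, 32, 48, 32, 14, 8, 12, 8, 10, 16, 8, 16, 46, 24, 52, 24, 26, 0],
    [22, 8, 12, 8, 2, 48, 56, 48, 38, 24, 52, 24, 34, 32, 16, 32, 18, 56, 52, 56, 22, 48, 56, 48, 50, 40, 12, 40, 6, 0],
    [22, 40, 44, 40, 34, 48, 56, 48, 38, 56, 20, 56, 2, 32, 16, 32, 18, 24, 20, 24, 54, 48, 56, 48, 50, 8, 44, 8, 38, 0],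
    [24, 16, 32, 48, 24, 32, 0, 32, 56, 48, 32, 16, 56, 0, 0, 0, 8, 48, 32, 16, 8, 32, 0, 32, 40, 16, 32, 48, 40, 0],
    [24, 32, 48, 32, 8, 0, 32, 0, 24, 32, 16, 32, 8, 0, 0, 0, 8, 32, 16, 32, 24, 0, 32, 0, 8, 32, 48, 32, 24, 0],
    [26, 24, 52, 24, 46, 16, 8, 16, 10, 8, 12, 8, 14, 32, 48, 32, 62, 40, 12, 40, 58, 16, 8, 16, 30, 56, 52, 56, 10, 0],
    [26, 56, 20, 56, 14, 16, 8, 16, 10, 40, 44, 40, 46, 32, 48, 32, 62, 8, 44, 8, 26, 16, 8, 16, 30, 24, 20, 24, 42, 0],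
    [38, 8, 44, 8, 50, 48, 56, 48, 54, 24, 20, 24, 18, 32, 16, 32, 2, 56, 20, 56, 38, 48, 56, 48, 34, 40, 44, 40, 22, 0],
    [38, 40, 12, 40, 18, 48, 56, 48, 54, 56, 52, 56, 50, 32, 16, 32, 2, 24, 52, 24, 6, 48, 56, 48, 34, 8, 12, 8, 54, 0],
    [40, 32, 16, 32, 56, 0, 32, 0, 40, 32, 48, 32, 56, 0, 0, 0, 56, 32, 48, 32, 40, 0, 32, 0, 56, 32, 16, 32, 40, 0],
    [42, 24, 20, 24, 30, 16, 8, 16, 26, 8, 44, 8, 62, 32, 48, 32, 46, 40, 44, 40, 10, 16, 8, 16, 14, 56, 20, 56, 26, 0],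
    [42, 56, 52, 56, 62, 16, 8, 16, 26, 40, 12, 40, 30, 32, 48, 32, 46, 8, 12, 8, 42, 16, 8, 16, 14, 24, 52, 24, 58, 0],
    [54, 8, 12, 8, 34, 48, 56, 48, 6, 24, 52, 24, 2, 32, 16, 32, 50, 56, 52, 56, 54, 48, 56, 48, 18, 40, 12, 40, 38, 0],
    [54, 40, 44, 40, 2, 48, 56, 48, 6, 56, 20, 56, 34, 32, 16, 32, 50, 24, 20, 24, 22, 48, 56, 48, 18, 8, 44, 8, 6, 0],
    [58, 24, 52, 24, 14, 16, 8, 16, 42, 8, 12, 8, 46, 32, 48, 32, 30, 40, 12, 40, 26, 16, 8, 16, 62, 56, 52, 56, 42, 0],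
    [58, 56, 20, 56, 46, 16, 8, 16, 42, 40, 44, 40, 14, 32, 48, 32, 30, 8, 44, 8, 58, 16, 8, 16, 62, 24, 20, 24, 10, 0]]

lemma hT : ∀ p ∈ T, p.length + 29 ≤ 2 * 30 ∧ ∀ r < 2, nxt 64 30 29 p r ∈ T := by decide +kernel

lemma hT2 : ∀ p ∈ T, p.getD 0 0 ∈ ([1, 6, 10, 22, 24, 26, 38, 40, 42, 54, 58] : List ℤ) := by
  decide +kernel

lemma aux (a : ℤ) (e j : ℕ) (q : ℤ) (h : a = 2 ^ e * q) (hq : q % 2 = 1)
    (h1 : (2 : ℤ) ^ j ∣ q - 1) (h2 : ¬ (2 : ℤ) ^ (j + 1) ∣ q - 1) :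
    emultiplicity (2 : ℤ) (a / 2 ^ multiplicity (2 : ℤ) a - 1) = j := by
  have hm : multiplicity (2 : ℤ) a = e := by
    apply multiplicity_eq_of_emultiplicity_eq_some
    rw [emultiplicity_eq_coe, h]
    refine ⟨dvd_mul_right _ _, fun h3 => ?_⟩
    rw [pow_succ] at h3
    have := (mul_dvd_mul_iff_left (by positivity)).1 h3
    omega
  rw [hm, h, Int.mul_ediv_cancel_left _ (by positivity), emultiplicity_eq_coe]
  exact ⟨h1, h2⟩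

lemma main (n : ℕ) (hn : 1 ≤ n) : u 3 n = 1 ∨ u 3 n = 2 := by
  obtain ⟨F, hF, hS⟩ := exF 3 3
  have h1 := cong F 3 3 29 29 5 hF (by norm_num) (by norm_num) n
  obtain ⟨p, hp, h2⟩ := aut 64 30 29 T hT n (itr 29 [1]) (by simp [T])
  have h3 := hT2 p hp
  have h5 : c 3 n = coeff n F := hS n
  obtain ⟨h, hh⟩ := F_odd F 3 (by rw [Phi, mul_pow]; exact hF)
  have h6 : coeff n F = 2 * coeff n h := by
    have := coeff_pow2_mul 1 h n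
    rw [pow_one, pow_one] at this
    rw [hh, map_add, coeff_one, if_neg (by omega), this, zero_add]
  unfold u
  rw [h5]
  generalize coeff n F = a at *
  generalize p.getD 0 0 = b at *
  simp only [List.mem_cons, List.not_mem_nil, or_false] at h3
  norm_num at h1
  have h7 : a % 8 = 6 ∨ a % 16 = 10 ∨ a % 64 = 24 ∨ a % 64 = 40 := by omega
  rcases h7 with h | h | h | h
  · left; exact aux a 1 1 (a / 2) (by omega) (by omega) (by omega) (by omega)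
  · right; exact aux a 1 2 (a / 2) (by omega) (by omega) (by omega) (by omega)
  · left; exact aux a 3 1 (a / 8) (by omega) (by omega) (by omega) (by omega)
  · right; exact aux a 3 2 (a / 8) (by omega) (by omega) (by omega) (by omega)

theorem result : (∀ n, 1 ≤ n → u 3 n = 1 ∨ u 3 n = 2) ∧
    ∃ m, 1 ≤ m ∧ (u m '' {n | 1 ≤ n}).Finite := by
  refine ⟨main, 3, by norm_num, (Set.toFinite ({1, 2} : Set ℕ∞)).subset ?_⟩
  rintro _ ⟨n, hn, rfl⟩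
  exact main n hn

end Pool.Agent.Results.MP_96deef_nt.Yes
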